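import Pool.Agent.H741.RS.Stm2

/-!
# RS REPE: the representation of the unitary group on the Hermitian kernels
-/

set_option autoImplicit false
open scoped ComplexConjugate
open MeasureTheory

namespace Pool.Agent.H906.RS
open Pool.Agent.H741.RS

variable {n : ℕ}

/-- the products -/
def PS (n i j : ℕ) : Set (V n → V n → ℂ) :=
  {f | ∃ a b : MvPolynomial (Fin n) ℂ, (a.IsHomogeneous i ∧ b.IsHomogeneous j) ∧
    f = fun z w => ev a z * conj (ev b w)}

theorem hker_iff {i j : ℕ} {u : V n → V n → ℂ} : HKer i j u ↔ u ∈ Submodule.span ℂ (PS n i j) := by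
  constructor
  · rintro ⟨m, a, b, h, hu⟩
    have : u = ∑ l, fun z w => ev (a l) z * conj (ev (b l) w) := by
      funext z w
      rw [hu]
      simp [Finset.sum_apply]
    rw [this]
    exact Submodule.sum_mem _ fun l _ => Submodule.subset_span ⟨a l, b l, h l, rfl⟩
  · intro h
    obtain ⟨m, c, g, hg⟩ := Submodule.mem_span_set'.1 h
    choose a b hab hf using fun l => (g l).2
    refine ⟨m, fun l => MvPolynomial.C (c l) * a l, b, fun l => ⟨(hab l).1.C_mul _, (hab l).2⟩,
      fun z w => ?_⟩
    rw [← hg]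
    simp only [Finset.sum_apply, Pi.smul_apply, smul_eq_mul]
    refine Finset.sum_congr rfl fun l _ => ?_
    rw [hf l]
    simp only [ev, map_mul, MvPolynomial.eval_C]
    ring

theorem aker_add {k : ℕ} {u v : V n → V n → ℂ} (hu : AKer k u) (hv : AKer k v) : AKer k (u + v) := by
  obtain ⟨a, h1, h2, h3, h4, h5⟩ := hu
  obtain ⟨b, g1, g2, g3, g4, g5⟩ := hv
  refine ⟨fun i j => a i j + b i j, fun i j => ?_, ?_, ?_, ?_, fun z w => ?_⟩
  · exact hker_iff.2 (add_mem (hker_iff.1 (h1 i j)) (hker_iff.1 (g1 i j)))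
  · show a 0 1 + b 0 1 = 0
    rw [h2, g2, add_zero]
  · show a 1 0 + b 1 0 = 0
    rw [h3, g3, add_zero]
  · show a 1 1 + b 1 1 = 0
    rw [h4, g4, add_zero]
  · simp only [Pi.add_apply, h5, g5, Finset.sum_add_distrib]

theorem aker_smul {k : ℕ} {u : V n → V n → ℂ} (c : ℂ) (hu : AKer k u) : AKer k (c • u) := by
  obtain ⟨a, h1, h2, h3, h4, h5⟩ := hu
  refine ⟨fun i j => c • a i j, fun i j => ?_, ?_, ?_, ?_, fun z w => ?_⟩
  · exact hker_iff.2 (Submodule.smul_mem _ _ (hker_iff.1 (h1 i j)))
  · show c • a 0 1 = 0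
    rw [h2, smul_zero]
  · show c • a 1 0 = 0
    rw [h3, smul_zero]
  · show c • a 1 1 = 0
    rw [h4, smul_zero]
  · simp only [Pi.smul_apply, h5, Finset.smul_sum]

theorem aker_zero (k : ℕ) : AKer k (0 : V n → V n → ℂ) :=
  ⟨fun _ _ => 0, fun i j => hker_iff.2 (zero_mem _), rfl, rfl, rfl, fun z w => by simp⟩

/-- substitution -/
noncomputable def sb (L : V n → V n) (P : MvPolynomial (Fin n) ℂ) : MvPolynomial (Fin n) ℂ :=
  MvPolynomial.aeval (fun i => ∑ j, MvPolynomial.C ((L (EuclideanSpace.single j 1)) i) * MvPolynomial.X j) P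

theorem sb_hom (L : V n → V n) {P : MvPolynomial (Fin n) ℂ} {i : ℕ} (h : P.IsHomogeneous i) :
    (sb L P).IsHomogeneous i := by
  have := h.aeval (fun i => ∑ j, MvPolynomial.C ((L (EuclideanSpace.single j (1 : ℂ))) i) * MvPolynomial.X j)
    (n := 1) (fun l => MvPolynomial.IsHomogeneous.sum _ _ _ fun j _ =>
      (MvPolynomial.isHomogeneous_X _ _).C_mul _)
  rwa [one_mul] at this

theorem sb_ev (U : V n ≃ₗᵢ[ℂ] V n) (P : MvPolynomial (Fin n) ℂ) (z : V n) :
    ev (sb U P) z = ev P (U z) := by
  have key : ∀ l, (U z) l = ∑ j, (U (EuclideanSpace.single j 1)) l * z j := by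
    intro l
    have h1 : z = ∑ j, z j • (EuclideanSpace.single j (1 : ℂ) : V n) := by
      ext m
      simp [Finset.sum_apply, Pi.single_apply]
    conv_lhs => rw [h1]
    rw [map_sum]
    simp [mul_comm]
  unfold ev sb
  induction P using MvPolynomial.induction_on with
  | C a => simp
  | add p q hp hq => rw [map_add, map_add, hp, hq, map_add]
  | mul_X p i hp =>
    rw [map_mul, map_mul, hp, MvPolynomial.aeval_X, map_mul, MvPolynomial.eval_X, key i]
    congr 1
    rw [map_sum]
    refine Finset.sum_congr rfl fun j _ => ?_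
    rw [map_mul, MvPolynomial.eval_C, MvPolynomial.eval_X]

theorem aker_sub {k : ℕ} {u : V n → V n → ℂ} (U : V n ≃ₗᵢ[ℂ] V n) (hu : AKer k u) :
    AKer k (fun z w => u (U z) (U w)) := by
  obtain ⟨a, h1, h2, h3, h4, h5⟩ := hu
  refine ⟨fun i j z w => a i j (U z) (U w), fun i j => ?_, ?_, ?_, ?_, fun z w => ?_⟩
  · obtain ⟨m, p, q, h, hh⟩ := h1 i j
    refine ⟨m, fun l => sb U (p l), fun l => sb U (q l), fun l => ⟨sb_hom _ (h l).1, sb_hom _ (h l).2⟩,
      fun z w => ?_⟩
    simp only [sb_ev, hh]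
  · funext z w
    show a 0 1 (U z) (U w) = 0
    rw [h2]
    rfl
  · funext z w
    show a 1 0 (U z) (U w) = 0
    rw [h3]
    rfl
  · funext z w
    show a 1 1 (U z) (U w) = 0
    rw [h4]
    rfl
  · show u (U z) (U w) = _
    rw [h5]

/-- the space -/
def E0 (n k : ℕ) : Submodule ℝ (V n → V n → ℂ) where
  carrier := {u | Herm u ∧ AKer k u}
  add_mem' := by
    rintro u v ⟨h1, h2⟩ ⟨g1, g2⟩
    refine ⟨fun z w => ?_, aker_add h2 g2⟩
    rw [Pi.add_apply, Pi.add_apply, Pi.add_apply, Pi.add_apply, h1 z w, g1 z w, map_add]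
  zero_mem' := ⟨fun z w => by simp, aker_zero k⟩
  smul_mem' := by
    rintro r u ⟨h1, h2⟩
    refine ⟨fun z w => ?_, ?_⟩
    · show r • u w z = conj (r • u z w)
      rw [h1 z w, Complex.real_smul, Complex.real_smul, map_mul, Complex.conj_ofReal]
    · have := aker_smul (r : ℂ) h2
      have e : (r : ℂ) • u = r • u := by
        funext z w
        simp [Complex.real_smul]
      rwa [e] at this

/-! ### finite dimension -/

/-- monomials -/
noncomputable def mo (α : Fin n → ℕ) (z : V n) : ℂ := ∏ l, z l ^ α l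

/-- the spanning functions -/
noncomputable def ee (n k : ℕ) (p : (Fin n → Fin (k + 1)) × (Fin n → Fin (k + 1)) × Bool) :
    V n → V n → ℂ := fun z w =>
  (if p.2.2 then Complex.I else 1) * (mo (fun l => (p.1 l : ℕ)) z * conj (mo (fun l => (p.2.1 l : ℕ)) w))

theorem ev_eq (P : MvPolynomial (Fin n) ℂ) (z : V n) :
    ev P z = ∑ m ∈ P.support, P.coeff m * mo (fun l => m l) z := by
  unfold ev mo
  rw [MvPolynomial.eval_eq']

theorem le_of_hom {P : MvPolynomial (Fin n) ℂ} {i : ℕ} (h : P.IsHomogeneous i) {m : Fin n →₀ ℕ}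
    (hm : m ∈ P.support) : ∑ l, m l = i := by
  have h1 := h (MvPolynomial.mem_support_iff.1 hm)
  rw [Finsupp.weight_apply, Finsupp.sum_fintype _ _ (fun _ => by simp)] at h1
  simpa using h1

theorem mem_span {k i j : ℕ} (hi : i ≤ k) (hj : j ≤ k) {u : V n → V n → ℂ} (hu : HKer i j u) :
    u ∈ Submodule.span ℝ (Set.range (ee n k)) := by
  obtain ⟨m, a, b, h, hu⟩ := hu
  have : u = ∑ l, ∑ s ∈ (a l).support, ∑ t ∈ (b l).support,
      fun z w => ((a l).coeff s * conj ((b l).coeff t)) *
        (mo (fun q => s q) z * conj (mo (fun q => t q) w)) := by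
    funext z w
    rw [hu]
    simp only [Finset.sum_apply]
    refine Finset.sum_congr rfl fun l _ => ?_
    rw [ev_eq, ev_eq, map_sum, Finset.sum_mul_sum]
    refine Finset.sum_congr rfl fun s _ => Finset.sum_congr rfl fun t _ => ?_
    rw [map_mul]
    ring
  rw [this]
  refine Submodule.sum_mem _ fun l _ => Submodule.sum_mem _ fun s hs => Submodule.sum_mem _ fun t ht => ?_
  obtain ⟨c, hc⟩ : ∃ c : ℂ, c = (a l).coeff s * conj ((b l).coeff t) := ⟨_, rfl⟩
  rw [← hc]
  have hs' : ∀ q, s q < k + 1 := fun q => by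
    have h1 := le_of_hom (h l).1 hs
    have h2 := Finset.single_le_sum (f := fun q => s q) (fun _ _ => Nat.zero_le _) (Finset.mem_univ q)
    omega
  have ht' : ∀ q, t q < k + 1 := fun q => by
    have h1 := le_of_hom (h l).2 ht
    have h2 := Finset.single_le_sum (f := fun q => t q) (fun _ _ => Nat.zero_le _) (Finset.mem_univ q)
    omega
  have e : (fun z w => c * (mo (fun q => s q) z * conj (mo (fun q => t q) w)) : V n → V n → ℂ) =
      c.re • ee n k (fun q => ⟨s q, hs' q⟩, fun q => ⟨t q, ht' q⟩, false) +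
      c.im • ee n k (fun q => ⟨s q, hs' q⟩, fun q => ⟨t q, ht' q⟩, true) := by
    funext z w
    simp only [ee, Pi.add_apply, Pi.smul_apply, Complex.real_smul, if_true, Bool.false_eq_true, if_false]
    nth_rewrite 1 [← Complex.re_add_im c]
    ring
  rw [e]
  exact add_mem (Submodule.smul_mem _ _ (Submodule.subset_span ⟨_, rfl⟩))
    (Submodule.smul_mem _ _ (Submodule.subset_span ⟨_, rfl⟩))

theorem e0_le (n k : ℕ) : E0 n k ≤ Submodule.span ℝ (Set.range (ee n k)) := by
  rintro u ⟨-, a, h1, -, -, -, h5⟩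
  have : u = ∑ i ∈ Finset.range (k + 1), ∑ j ∈ Finset.range (k + 1), a i j := by
    funext z w
    rw [h5]
    simp only [Finset.sum_apply]
  rw [this]
  refine Submodule.sum_mem _ fun i hi => Submodule.sum_mem _ fun j hj => ?_
  rw [Finset.mem_range] at hi hj
  exact mem_span (by omega) (by omega) (h1 i j)

theorem fin_e0 (n k : ℕ) : FiniteDimensional ℝ (E0 n k) := by
  have := FiniteDimensional.span_of_finite ℝ (Set.finite_range (ee n k))
  exact Submodule.finiteDimensional_of_le (e0_le n k)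

/-! ### continuity and vanishing -/

theorem cont_ev (P : MvPolynomial (Fin n) ℂ) : Continuous (ev P : V n → ℂ) := by
  unfold ev
  exact (MvPolynomial.continuous_eval P).comp (by fun_prop)

theorem cont_aker {k : ℕ} {u : V n → V n → ℂ} (hu : AKer k u) :
    Continuous fun p : V n × V n => u p.1 p.2 := by
  obtain ⟨a, h1, -, -, -, h5⟩ := hu
  simp only [h5]
  refine continuous_finsetSum _ fun i _ => continuous_finsetSum _ fun j _ => ?_
  obtain ⟨m, p, q, -, hh⟩ := h1 i j
  simp only [hh]
  refine continuous_finsetSum _ fun l _ => ?_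
  exact ((cont_ev _).comp continuous_fst).mul
    (Complex.continuous_conj.comp ((cont_ev _).comp continuous_snd))

theorem ev_smul {P : MvPolynomial (Fin n) ℂ} {i : ℕ} (h : P.IsHomogeneous i) (t : ℂ) (z : V n) :
    ev P (t • z) = t ^ i * ev P z := by
  rw [ev_eq, ev_eq, Finset.mul_sum]
  refine Finset.sum_congr rfl fun m hm => ?_
  have : mo (fun l => m l) (t • z) = t ^ i * mo (fun l => m l) z := by
    unfold mo
    simp only [PiLp.smul_apply, smul_eq_mul, mul_pow, Finset.prod_mul_distrib, Finset.prod_pow_eq_pow_sum]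
    rw [le_of_hom h hm]
  rw [this]
  ring

theorem hker_smul {i j : ℕ} {u : V n → V n → ℂ} (hu : HKer i j u) (t : ℝ) (z w : V n) :
    u ((t : ℂ) • z) ((t : ℂ) • w) = (t : ℂ) ^ (i + j) * u z w := by
  obtain ⟨m, p, q, h, hh⟩ := hu
  rw [hh, hh, Finset.mul_sum]
  refine Finset.sum_congr rfl fun l _ => ?_
  rw [ev_smul (h l).1, ev_smul (h l).2, map_mul, map_pow, Complex.conj_ofReal]
  ring

theorem aker_vanish {k : ℕ} {u : V n → V n → ℂ} (hu : AKer k u)
    (h0 : ∀ z w : V n, ‖z‖ < 1 → ‖w‖ < 1 → u z w = 0) : u = 0 := by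
  obtain ⟨a, h1, -, -, -, h5⟩ := hu
  funext z w
  obtain ⟨P, hP⟩ : ∃ P : Polynomial ℂ, P = ∑ i ∈ Finset.range (k + 1), ∑ j ∈ Finset.range (k + 1),
    Polynomial.C (a i j z w) * Polynomial.X ^ (i + j) := ⟨_, rfl⟩
  have hev : ∀ t : ℝ, P.eval (t : ℂ) = u ((t : ℂ) • z) ((t : ℂ) • w) := by
    intro t
    rw [hP, h5, Polynomial.eval_finsetSum]
    refine Finset.sum_congr rfl fun i _ => ?_
    rw [Polynomial.eval_finsetSum]
    refine Finset.sum_congr rfl fun j _ => ?_
    rw [hker_smul (h1 i j), Polynomial.eval_mul, Polynomial.eval_C, Polynomial.eval_pow, Polynomial.eval_X,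
      mul_comm]
  have hinf : Set.Infinite {x | P.IsRoot x} := by
    refine Set.infinite_of_injective_forall_mem
      (f := fun m : ℕ => (((((m : ℝ) + 1 + ‖z‖ + ‖w‖)⁻¹ : ℝ)) : ℂ)) ?_ ?_
    · intro m m' hmm
      have h2 := inv_injective (Complex.ofReal_injective hmm)
      have h3 : (m : ℝ) = m' := by linarith
      exact_mod_cast h3
    · intro m
      show P.eval _ = 0
      have hpos : 0 < (m : ℝ) + 1 + ‖z‖ + ‖w‖ := by positivity
      rw [hev]
      have hn : ‖((((m : ℝ) + 1 + ‖z‖ + ‖w‖)⁻¹ : ℝ) : ℂ)‖ = ((m : ℝ) + 1 + ‖z‖ + ‖w‖)⁻¹ := by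
        rw [Complex.norm_real, Real.norm_of_nonneg (inv_nonneg.2 hpos.le)]
      refine h0 _ _ ?_ ?_
      · rw [norm_smul, hn, inv_mul_lt_iff₀ hpos, mul_one]
        have := norm_nonneg w
        have : (0 : ℝ) ≤ m := Nat.cast_nonneg m
        linarith
      · rw [norm_smul, hn, inv_mul_lt_iff₀ hpos, mul_one]
        have := norm_nonneg z
        have : (0 : ℝ) ≤ m := Nat.cast_nonneg m
        linarith
  have hP0 := Polynomial.eq_zero_of_infinite_isRoot P hinf
  have := hev 1
  rw [hP0] at this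
  simpa using this.symm

/-! ### the scalar product -/

/-- the unit ball of the product -/
def K2 (n : ℕ) : Set (V n × V n) := Metric.closedBall 0 1

theorem cont_ip {k : ℕ} (u v : E0 n k) :
    Continuous fun p : V n × V n => (u.1 p.1 p.2 * conj (v.1 p.1 p.2)).re :=
  Complex.continuous_re.comp ((cont_aker u.2.2).mul (Complex.continuous_conj.comp (cont_aker v.2.2)))

/-- the scalar product -/
noncomputable def ip {k : ℕ} (u v : E0 n k) : ℝ :=
  ∫ p in K2 n, (u.1 p.1 p.2 * conj (v.1 p.1 p.2)).re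

theorem int_ip {k : ℕ} (u v : E0 n k) :
    IntegrableOn (fun p : V n × V n => (u.1 p.1 p.2 * conj (v.1 p.1 p.2)).re) (K2 n) :=
  (cont_ip u v).continuousOn.integrableOn_compact (isCompact_closedBall _ _)

theorem ip_def {k : ℕ} (u : E0 n k) (h : ip u u = 0) : u = 0 := by
  have hnn : ∀ p : V n × V n, 0 ≤ (u.1 p.1 p.2 * conj (u.1 p.1 p.2)).re := fun p => by
    rw [Complex.mul_conj, Complex.ofReal_re]
    exact Complex.normSq_nonneg _
  have h1 : (fun p : V n × V n => (u.1 p.1 p.2 * conj (u.1 p.1 p.2)).re) =ᵐ[volume.restrict (K2 n)] 0 :=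
    (integral_eq_zero_iff_of_nonneg hnn (int_ip u u)).1 h
  have h2 : (fun p : V n × V n => (u.1 p.1 p.2 * conj (u.1 p.1 p.2)).re)
      =ᵐ[volume.restrict (Metric.ball 0 1)] 0 :=
    ae_mono (Measure.restrict_mono Metric.ball_subset_closedBall le_rfl) h1
  have h3 := Measure.eqOn_open_of_ae_eq h2 Metric.isOpen_ball (cont_ip u u).continuousOn continuousOn_const
  refine Subtype.ext (aker_vanish u.2.2 fun z w hz hw => ?_)
  have h4 := h3 (x := (z, w)) (by
    rw [Metric.mem_ball, dist_zero_right, Prod.norm_def]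
    exact max_lt hz hw)
  simp only [Pi.zero_apply, Complex.mul_conj, Complex.ofReal_re, Complex.normSq_eq_zero] at h4
  exact h4

/-- the product of a unitary map with itself -/
theorem mp (U : V n ≃ₗᵢ[ℂ] V n) :
    MeasurePreserving (fun p : V n × V n => (U p.1, U p.2)) (volume.restrict (K2 n))
      (volume.restrict (K2 n)) := by
  have h1 : MeasurePreserving (fun z : V n => U z) volume volume :=
    LinearIsometryEquiv.measurePreserving (E := V n) (F := V n)
      { toLinearEquiv := U.toLinearEquiv.restrictScalars ℝ, norm_map' := U.norm_map }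
  have h2 : MeasurePreserving (Prod.map (fun z : V n => U z) (fun z : V n => U z)) volume volume := h1.prod h1
  have h3 := h2.restrict_preimage (s := K2 n) measurableSet_closedBall
  have h4 : (Prod.map (fun z : V n => U z) (fun z : V n => U z)) ⁻¹' (K2 n) = K2 n := by
    ext p
    simp [K2, Prod.norm_def]
  rw [h4] at h3
  exact h3

theorem emb (U : V n ≃ₗᵢ[ℂ] V n) : MeasurableEmbedding (fun p : V n × V n => (U p.1, U p.2)) :=
  (U.toHomeomorph.prodCongr U.toHomeomorph).measurableEmbedding

/-- the action -/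
noncomputable def act {k : ℕ} (U : V n ≃ₗᵢ[ℂ] V n) (u : E0 n k) : E0 n k :=
  ⟨fun z w => u.1 (U.symm z) (U.symm w), fun _ _ => u.2.1 _ _, aker_sub U.symm u.2.2⟩

theorem ip_act {k : ℕ} (U : V n ≃ₗᵢ[ℂ] V n) (u v : E0 n k) : ip (act U u) (act U v) = ip u v :=
  (mp U.symm).integral_comp (emb U.symm) (fun p : V n × V n => (u.1 p.1 p.2 * conj (v.1 p.1 p.2)).re)

/-- the representation space -/
def EE (n k : ℕ) : Type := E0 n k

noncomputable instance (n k : ℕ) : AddCommGroup (EE n k) := inferInstanceAs (AddCommGroup (E0 n k))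
noncomputable instance (n k : ℕ) : Module ℝ (EE n k) := inferInstanceAs (Module ℝ (E0 n k))

/-- the core -/
@[instance_reducible] noncomputable def cr (n k : ℕ) : InnerProductSpace.Core ℝ (EE n k) where
  inner u v := ip (k := k) u v
  conj_inner_symm u v := by
    show ip (k := k) v u = ip (k := k) u v
    unfold ip
    refine integral_congr_ae (Filter.Eventually.of_forall fun p => ?_)
    simp only [Complex.mul_re, Complex.conj_re, Complex.conj_im]
    ring
  re_inner_nonneg u := by
    show 0 ≤ ip (k := k) u u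
    refine integral_nonneg fun p => ?_
    show 0 ≤ (_ * conj _ : ℂ).re
    rw [Complex.mul_conj, Complex.ofReal_re]
    exact Complex.normSq_nonneg _
  add_left u v w := by
    show ip (k := k) (u + v : E0 n k) w = ip (k := k) u w + ip (k := k) v w
    unfold ip
    rw [← integral_add (int_ip (k := k) u w) (int_ip (k := k) v w)]
    refine integral_congr_ae (Filter.Eventually.of_forall fun p => ?_)
    show ((_ + _) * _ : ℂ).re = _
    rw [add_mul, Complex.add_re]
  smul_left u v r := by
    show ip (k := k) (r • u : E0 n k) v = r * ip (k := k) u v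
    unfold ip
    rw [← integral_const_mul]
    refine integral_congr_ae (Filter.Eventually.of_forall fun p => ?_)
    show ((r • _) * _ : ℂ).re = _
    rw [Complex.real_smul, mul_assoc, Complex.re_ofReal_mul]
  definite u h := ip_def (k := k) u h

/-- the action as an equivalence -/
noncomputable def le (k : ℕ) (U : V n ≃ₗᵢ[ℂ] V n) : EE n k ≃ₗ[ℝ] EE n k where
  toFun u := act (k := k) U u
  invFun u := act (k := k) U.symm u
  map_add' u v := rfl
  map_smul' r u := rfl
  left_inv u := by
    refine Subtype.ext ?_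
    funext z w
    show u.1 (U.symm (U z)) (U.symm (U w)) = u.1 z w
    rw [U.symm_apply_apply, U.symm_apply_apply]
  right_inv u := by
    refine Subtype.ext ?_
    funext z w
    show u.1 (U (U.symm z)) (U (U.symm w)) = u.1 z w
    rw [U.apply_symm_apply, U.apply_symm_apply]

theorem t_REPE : S_REPE := by
  intro n k
  let i1 : NormedAddCommGroup (EE n k) := (cr n k).toNormedAddCommGroup
  let i2 : InnerProductSpace ℝ (EE n k) := InnerProductSpace.ofCore (cr n k).toCore
  have i3 : FiniteDimensional ℝ (EE n k) := fin_e0 n k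
  refine ⟨EE n k, i1, i2, i3, ⟨?_⟩⟩
  exact
    { ρ :=
        { toFun := fun U => (le k U).isometryOfInner fun u v => ip_act (k := k) U u v
          map_one' := by
            ext u
            rfl
          map_mul' := fun U U' => by
            ext u
            rfl }
      κ := (E0 n k).subtype
      inj := Subtype.val_injective
      herm := fun u => u.2
      surj := fun u h1 h2 => ⟨⟨u, h1, h2⟩, rfl⟩
      equi := fun U u z w => by
        show u.1 (U.symm (U z)) (U.symm (U w)) = u.1 z w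
        rw [U.symm_apply_apply, U.symm_apply_apply] }

end Pool.Agent.H906.RS

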